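import Mathlib

set_option autoImplicit false

/-!
# Counting width of circular-arc graphs: the definitions used in the statements
-/

namespace PCA38

/-! ## Counting logic -/

/-- Formulas of `C^k` over the vocabulary of graphs.  `ex m i φ` is the counting quantifier
`∃^{≥ m+1} x_i φ` (so all thresholds `≥ 1` occur). -/
inductive Fml (k : ℕ) : Type
  | adj (i j : Fin k) : Fml k
  | eq (i j : Fin k) : Fml k
  | neg (φ : Fml k) : Fml k
  | and (φ ψ : Fml k) : Fml k
  | ex (m : ℕ) (i : Fin k) (φ : Fml k) : Fml k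

/-- The set of free variables. -/
def Fml.free {k : ℕ} : Fml k → Set (Fin k)
  | .adj i j => {i, j}
  | .eq i j => {i, j}
  | .neg φ => φ.free
  | .and φ ψ => φ.free ∪ ψ.free
  | .ex _ i φ => φ.free \ {i}

/-- Satisfaction in the graph `G` under the assignment `s`. -/
def Sat {k : ℕ} {V : Type} (G : SimpleGraph V) : Fml k → (Fin k → V) → Prop
  | .adj i j, s => G.Adj (s i) (s j)
  | .eq i j, s => s i = s j
  | .neg φ, s => ¬ Sat G φ s
  | .and φ ψ, s => Sat G φ s ∧ Sat G ψ s
  | .ex m i φ, s => ∃ A : Finset V, m + 1 ≤ A.card ∧ ∀ a ∈ A, Sat G φ (Function.update s i a)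

/-- A sentence is a formula without free variables. -/
def Fml.IsSentence {k : ℕ} (φ : Fml k) : Prop := φ.free = ∅

/-- `G` satisfies the sentence `φ`. -/
def Models {k : ℕ} {V : Type} (G : SimpleGraph V) (φ : Fml k) : Prop :=
  ∀ s : Fin k → V, Sat G φ s

/-- `W^#(G) ≤ k`: some sentence of `C^k` defines `G` among all finite (nonempty) graphs. -/
def DefinableIn (k : ℕ) {V : Type} (G : SimpleGraph V) : Prop :=
  ∃ φ : Fml k, φ.IsSentence ∧ Models G φ ∧
    ∀ (W : Type) [Finite W] [Nonempty W] (H : SimpleGraph W), Models H φ → Nonempty (G ≃g H)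

/-! ## Circular-arc graphs -/

/-- The closed arc of the circle `ℝ/ℤ` starting at `s`, of length `l`. -/
def arc (s l : ℝ) : Set (AddCircle (1 : ℝ)) :=
  {x | ∃ a : ℝ, 0 ≤ a ∧ a ≤ l ∧ ((s + a : ℝ) : AddCircle (1 : ℝ)) = x}

/-- Proper circular-arc graph: the intersection graph of a family of arcs of a circle
no one of which properly contains another one. -/
def IsPCA {V : Type} (G : SimpleGraph V) : Prop :=
  ∃ s l : V → ℝ, (∀ v, 0 ≤ l v) ∧
    (∀ u v, arc (s u) (l u) ⊆ arc (s v) (l v) → arc (s u) (l u) = arc (s v) (l v)) ∧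
    ∀ u v, G.Adj u v ↔ u ≠ v ∧ (arc (s u) (l u) ∩ arc (s v) (l v)).Nonempty

/-- Circular-arc graph: the intersection graph of a finite family of arcs of a circle. -/
def IsCA {V : Type} (G : SimpleGraph V) : Prop :=
  ∃ s l : V → ℝ, (∀ v, 0 ≤ l v) ∧
    ∀ u v, G.Adj u v ↔ u ≠ v ∧ (arc (s u) (l u) ∩ arc (s v) (l v)).Nonempty

/-- Closed neighbourhood. -/
def nb {V : Type} (G : SimpleGraph V) (x : V) : Set V := {z | z = x ∨ G.Adj x z}

/-- Every dominating edge contains a universal vertex. -/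
def DomU {V : Type} (G : SimpleGraph V) : Prop :=
  ∀ x y, G.Adj x y → (∃ z, z ∉ nb G x ∧ z ∉ nb G y) ∨ (∀ z, z ∈ nb G x) ∨ (∀ z, z ∈ nb G y)

end PCA38
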